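import Pool.Agent.Helper65.NX.Goals
import Pool.Agent.Helper28.Long.Par

/-!
# Networks of processors: the parameters (PAR)
-/

namespace Pool.Agent.Helper65.NX.K12

open Pool.Agent.Helper65.LinSpace Pool.Agent.Helper78.Mpc Pool.Agent.Helper28.Ram Finset Filter
open Pool.Agent.Helper65.NX Pool.Agent.Helper65 Pool.Agent.Helper28.Long

theorem par1 (C : ℝ) : ∀ᶠ n : ℕ in atTop, ∀ x s a V B : ℕ, 1 ≤ s → 0 < B → B ≤ V →
    (V : ℝ) * s * ((Nat.log 2 n : ℝ) + 1) * ((Nat.log 2 (Nat.log 2 n + 1) : ℝ) + 1) ≤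
      C * ((n : ℝ) + 1) →
    (x : ℝ) * ((Nat.log 2 n : ℝ) + 1) * ((Nat.log 2 (Nat.log 2 n + 1) : ℝ) + 1) ≤
      C * ((n : ℝ) + 1) * B →
    ((s : ℝ) + a) * ((Nat.log 2 n : ℝ) + 1) ^ 2 ≤ C * ((n : ℝ) + 1) →
    s ≤ RT.qT n - 1 ∧ s ≤ Pool.Agent.Helper28.Long.ZL n ∧ a ≤ Pool.Agent.Helper28.Long.ZL n ∧
      s < n + 2 ∧ a < n + 2 ∧ V < n + 2 ∧ B < n + 2 ∧ V ≤ RT.qT n / (s + 1) ∧
      x < RT.qT n * B := by
  obtain ⟨k, hk⟩ := exists_nat_gt |C|
  filter_upwards [ev_lll_ge (4 * k + 4), le_ZL C] with n hn hZ x s a V B hs hB hBV h1 h2 h3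
  have hl : ((ll n : ℕ) : ℝ) = (Nat.log 2 n : ℝ) + 1 := by
    unfold ll
    push_cast
    ring
  have hll : ((ll (ll n) : ℕ) : ℝ) = (Nat.log 2 (Nat.log 2 n + 1) : ℝ) + 1 := by
    unfold ll
    push_cast
    ring
  have hCk : C ≤ k := (le_abs_self C).trans hk.le
  have hl1 : (0 : ℝ) < ll n := by exact_mod_cast ll_pos n
  have hl2 : (0 : ℝ) < (ll n : ℝ) ^ 2 := by positivity
  have hZs : s ≤ ZL n := by
    apply hZ
    rw [← hl] at h3 ⊢
    rw [le_div_iff₀ (by positivity)]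
    have : (0 : ℝ) ≤ a * (ll n : ℝ) ^ 2 := by positivity
    linarith
  have hZa : a ≤ ZL n := by
    apply hZ
    rw [← hl] at h3 ⊢
    rw [le_div_iff₀ (by positivity)]
    have : (0 : ℝ) ≤ s * (ll n : ℝ) ^ 2 := by positivity
    linarith
  rw [← hl, ← hll] at h1 h2
  have e1 : V * s * ll n * ll (ll n) ≤ k * (n + 1) := by
    have : ((V * s * ll n * ll (ll n) : ℕ) : ℝ) ≤ ((k * (n + 1) : ℕ) : ℝ) := by
      push_cast
      refine h1.trans ?_
      exact mul_le_mul_of_nonneg_right hCk (by positivity)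
    exact_mod_cast this
  have e2 : x * ll n * ll (ll n) ≤ k * (n + 1) * B := by
    have : ((x * ll n * ll (ll n) : ℕ) : ℝ) ≤ ((k * (n + 1) * B : ℕ) : ℝ) := by
      push_cast
      refine h2.trans ?_
      rw [mul_assoc, mul_assoc]
      exact mul_le_mul_of_nonneg_right hCk (by positivity)
    exact_mod_cast this
  clear h1 h2 h3 hl hll hl1 hl2 hZ hCk hk
  have hq : n + 1 ≤ RT.qT n * ll n := by
    unfold RT.qT
    have := Nat.div_add_mod n (ll n)
    have h3 := Nat.mod_lt n (show ll n > 0 from ll_pos n)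
    rw [Nat.add_mul, one_mul, Nat.mul_comm (n / ll n)]
    omega
  have hqT : RT.qT n - 1 = n / ll n := by
    unfold RT.qT
    exact Nat.add_sub_cancel _ _
  have hl0 : 1 ≤ ll n := ll_pos n
  have hZn := ZL_le n
  have e3 : 4 * (V * s * ll n) ≤ n + 1 := by
    have h6 : (k + 1) * (4 * (V * s * ll n)) ≤ (k + 1) * (n + 1) := by
      calc (k + 1) * (4 * (V * s * ll n)) = (V * s * ll n) * (4 * k + 4) := by ring
        _ ≤ (V * s * ll n) * ll (ll n) := Nat.mul_le_mul_left _ hn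
        _ ≤ k * (n + 1) := e1
        _ ≤ (k + 1) * (n + 1) := Nat.mul_le_mul_right _ (by omega)
    exact Nat.le_of_mul_le_mul_left h6 (by omega)
  have e4 : 4 * (x * ll n) ≤ (n + 1) * B := by
    have h6 : (k + 1) * (4 * (x * ll n)) ≤ (k + 1) * ((n + 1) * B) := by
      calc (k + 1) * (4 * (x * ll n)) = (x * ll n) * (4 * k + 4) := by ring
        _ ≤ (x * ll n) * ll (ll n) := Nat.mul_le_mul_left _ hn
        _ ≤ k * (n + 1) * B := e2
        _ = k * ((n + 1) * B) := by ring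
        _ ≤ (k + 1) * ((n + 1) * B) := Nat.mul_le_mul_right _ (by omega)
    exact Nat.le_of_mul_le_mul_left h6 (by omega)
  have hV : 1 ≤ V := by omega
  have hsl : 1 ≤ s * ll n := Nat.mul_pos hs hl0
  have hVsl : s * ll n ≤ V * s * ll n := by
    rw [Nat.mul_assoc]
    exact Nat.le_mul_of_pos_left _ hV
  have hVV : V ≤ V * s * ll n := by
    rw [Nat.mul_assoc]
    exact Nat.le_mul_of_pos_right _ hsl
  refine ⟨?_, hZs, hZa, by omega, by omega, by omega, by omega, ?_, ?_⟩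
  · rw [hqT, Nat.le_div_iff_mul_le hl0]
    omega
  · rw [Nat.le_div_iff_mul_le (by omega)]
    have h5 : (V * (s + 1)) * ll n ≤ RT.qT n * ll n := by
      calc (V * (s + 1)) * ll n ≤ (V * (2 * s)) * ll n :=
            Nat.mul_le_mul_right _ (Nat.mul_le_mul_left _ (by omega))
        _ = 2 * (V * s * ll n) := by ring
        _ ≤ n + 1 := by omega
        _ ≤ RT.qT n * ll n := hq
    exact Nat.le_of_mul_le_mul_right h5 hl0
  · have h5 : x * ll n < (RT.qT n * B) * ll n := by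
      by_contra hcon
      push Not at hcon
      have h6 : (n + 1) * B ≤ (RT.qT n * B) * ll n := by
        calc (n + 1) * B ≤ (RT.qT n * ll n) * B := Nat.mul_le_mul_right _ hq
          _ = (RT.qT n * B) * ll n := by ring
      have h7 : 0 < (n + 1) * B := Nat.mul_pos (by omega) hB
      omega
    exact Nat.lt_of_mul_lt_mul_right h5

theorem par2 (c g : ℕ) : ∀ᶠ n : ℕ in atTop, ∀ S ≤ Pool.Agent.Helper28.Long.ZL n,
    ∀ Z ≤ Pool.Agent.Helper28.Long.ZL n,
    g ≤ ll (ll n) ∧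
    c * ((2 * g + 2) * (S + 1) + 10 * (Z + ll n) + 20) ≤ LW n ∧
    c + LW n + ((2 * g + 2) * (S + 1) + 10 * (Z + ll n) + 20) ≤ 2 ^ (2 * ll n) ∧
    c * (8 * Z + 8) ≤ LW n ∧ c + LW n + 8 * Z + 8 ≤ 2 ^ (2 * ll n) ∧
    (∀ x : ℕ, Nat.log 2 x = n → 2 ^ (S + 1) ≤ CR x ∧ 2 ^ (Z + 2) ≤ CR x) := by
  filter_upwards [ev_ll_cube (2 * (c * (2 * g + 2) + 30 * c) + 1),
    ev_lll_ge (2 * (c * (2 * g + 2) + 10 * c) + g),
    eventually_ge_atTop (c + 2 * g + 100)] with n h1 h2 h3 S hS Z hZ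
  have hl := ll_pos n
  have hLn : LW n ≤ n := Nat.div_le_self _ _
  have hSn : S ≤ n := hS.trans (ZL_le n)
  have hZn : Z ≤ n := hZ.trans (ZL_le n)
  set G : ℕ := 2 * g + 2 with hG
  have hLl : (2 * (c * G + 30 * c) + 1) * ll n ≤ LW n := by
    unfold LW
    rw [Nat.le_div_iff_mul_le hl]
    refine le_trans ?_ h1
    calc (2 * (c * G + 30 * c) + 1) * ll n * ll n = (2 * (c * G + 30 * c) + 1) * (ll n * ll n) := by
          ring
      _ ≤ (2 * (c * G + 30 * c) + 1) * (ll n * ll n * ll n) :=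
        Nat.mul_le_mul_left _ (Nat.le_mul_of_pos_right _ hl)
  have hlW : ll n ≤ LW n := by
    refine le_trans ?_ hLl
    exact Nat.le_mul_of_pos_left _ (by omega)
  have h7 : ZL n * ll (ll n) ≤ LW n := Nat.div_mul_le_self _ _
  have hZ2 : 2 * (c * G * ZL n) + 20 * (c * ZL n) ≤ LW n := by
    calc 2 * (c * G * ZL n) + 20 * (c * ZL n) = ZL n * (2 * (c * G + 10 * c)) := by ring
      _ ≤ ZL n * ll (ll n) := Nat.mul_le_mul_left _ (by omega)
      _ ≤ LW n := h7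
  have hcS : c * G * S ≤ c * G * ZL n := Nat.mul_le_mul_left _ hS
  have hcZ : c * Z ≤ c * ZL n := Nat.mul_le_mul_left _ hZ
  have hcl : c ≤ c * ll n := Nat.le_mul_of_pos_right _ hl
  have hcGl : c * G ≤ c * G * ll n := Nat.le_mul_of_pos_right _ hl
  have hLl2 : 2 * (c * G * ll n) + 60 * (c * ll n) + ll n ≤ LW n := by
    calc 2 * (c * G * ll n) + 60 * (c * ll n) + ll n = (2 * (c * G + 30 * c) + 1) * ll n := by ring
      _ ≤ LW n := hLl
  have hl2 := lt_two_pow_ll n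
  have h8 : (n + 1) * (n + 1) ≤ 2 ^ (2 * ll n) := by
    rw [two_mul, pow_add]
    exact Nat.mul_le_mul hl2 hl2
  have h9 : (c + G + 50) * (n + 1) ≤ (n + 1) * (n + 1) := Nat.mul_le_mul_right _ (by omega)
  have h10 : G * (S + 1) ≤ G * (n + 1) := Nat.mul_le_mul_left _ (by omega)
  have h11 : (c + G + 50) * (n + 1) = c * (n + 1) + G * (n + 1) + 50 * (n + 1) := by ring
  have h12 : c ≤ c * (n + 1) := Nat.le_mul_of_pos_right _ (by omega)
  refine ⟨by omega, ?_, ?_, ?_, ?_, fun x hx => ⟨pow_le_CR ?_, pow_le_CR ?_⟩⟩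
  · have h13 : c * (G * (S + 1) + 10 * (Z + ll n) + 20) =
        c * G * S + c * G + 10 * (c * Z) + 10 * (c * ll n) + 20 * c := by
      ring
    omega
  · omega
  · have h13 : c * (8 * Z + 8) = 8 * (c * Z) + 8 * c := by
      ring
    omega
  · omega
  · rw [hx]
    omega
  · rw [hx]
    omega

/-- PAR. -/
theorem par : PAR_stmt := ⟨par1, par2⟩

end Pool.Agent.Helper65.NX.K12
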